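import Pool.Agent.NCG.ClassThm

namespace Pool.Agent.Results.MP_dc69e0_al.ProductsAndFrobenius

open Pool.Agent.NCG

/-- (1) If `H` is a finite group of the class `InClass` and `G` is a finite group whose
non-commuting graph is isomorphic to that of `H`, then `G` is solvable.
(2) The class of all finite groups `H` with this property (`Recognised H`) is closed under
central products `H = H₁ H₂` (with `Z(H) ≤ H₁, H₂`), and
(3) under forming `H` from `K` and `L` when `H / Z(H)` is a Frobenius group with kernel `K / Z(H)`
and complement `L / Z(H)`, the centres of `K` and `L` being larger than `Z(H)`; no condition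
on `L` is needed if `|L / Z(H)|` is not divisible by `8`. -/
theorem result :
    (∀ (H : Type) [Group H] [Finite H], InClass H → Recognised H) ∧
    (∀ (H : Type) [Group H] [Finite H] (H₁ H₂ : Subgroup H), Subgroup.center H ≤ H₁ →
      Subgroup.center H ≤ H₂ → (∀ a ∈ H₁, ∀ b ∈ H₂, a * b = b * a) →
      (∀ h : H, ∃ a ∈ H₁, ∃ b ∈ H₂, a * b = h) →
      Recognised H₁ → Recognised H₂ → Recognised H) ∧
    (∀ (H : Type) [Group H] [Finite H] (K L : Subgroup H), RelFrobenius K L →
      Recognised K → (Recognised L ∨ ¬ 8 ∣ Nat.card L / Nat.card (Subgroup.center H)) →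
      Recognised H) :=
  ⟨fun H _ _ h => (stable_of_inClass H h inferInstance).recognised,
    fun _ _ _ H₁ H₂ h1 h2 h3 h4 h5 h6 => recognised_central H₁ H₂ h1 h2 h3 h4 h5 h6,
    fun _ _ _ _ _ F hK hL => recognised_frobenius F hK hL⟩

end Pool.Agent.Results.MP_dc69e0_al.ProductsAndFrobenius
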